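import Pool.Agent.Lib_helper32.EvenHomeo.SpaceCoordDefs

/-!
# SPACECOORD, the fibre coordinates `Q1`, `Q2`: elementary facts and continuity
-/

open Set Metric Topology Filter

namespace Pool.Agent.EvenHomeo

open Pool.Agent.MinHomeo (Amb Sph)

namespace SpaceCoord

/-! ### `nrm`, `q1`, `q2` -/

theorem nrm_nonneg (A : ℂ) (y : ℝ) : 0 ≤ nrm A y := Real.sqrt_nonneg _

theorem nrm_sq (A : ℂ) (y : ℝ) : nrm A y ^ 2 = ‖A‖ ^ 2 + y ^ 2 :=
  Real.sq_sqrt (by positivity)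

theorem abs_le_nrm (A : ℂ) (y : ℝ) : |y| ≤ nrm A y := by
  refine abs_le_of_sq_le_sq ?_ (nrm_nonneg A y)
  rw [nrm_sq]
  nlinarith [sq_nonneg ‖A‖]

theorem le_nrm (A : ℂ) (y : ℝ) : y ≤ nrm A y := (le_abs_self y).trans (abs_le_nrm A y)

theorem neg_le_nrm (A : ℂ) (y : ℝ) : -y ≤ nrm A y := (neg_le_abs y).trans (abs_le_nrm A y)

theorem nrm_zero_of_nonneg {y : ℝ} (hy : 0 ≤ y) : nrm 0 y = y := by
  unfold nrm
  rw [norm_zero]
  rw [show (0 : ℝ) ^ 2 + y ^ 2 = y ^ 2 by ring, Real.sqrt_sq hy]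

theorem q1_nonneg (A : ℂ) (y : ℝ) : 0 ≤ q1 A y := Real.sqrt_nonneg _

theorem q2_nonneg (A : ℂ) (y : ℝ) : 0 ≤ q2 A y := Real.sqrt_nonneg _

theorem q1_sq (A : ℂ) (y : ℝ) : q1 A y ^ 2 = nrm A y * (nrm A y + y) / 2 := by
  refine Real.sq_sqrt ?_
  have h1 := nrm_nonneg A y
  have h2 := neg_le_nrm A y
  have : 0 ≤ nrm A y + y := by linarith
  positivity

theorem q2_sq (A : ℂ) (y : ℝ) : q2 A y ^ 2 = nrm A y * (nrm A y - y) / 2 := by
  refine Real.sq_sqrt ?_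
  have h1 := nrm_nonneg A y
  have h2 := le_nrm A y
  have : 0 ≤ nrm A y - y := by linarith
  positivity

theorem nrm_cont : Continuous fun p : ℂ × ℝ => nrm p.1 p.2 := by
  unfold nrm
  fun_prop

theorem q1_cont : Continuous fun p : ℂ × ℝ => q1 p.1 p.2 := by
  unfold q1
  have := nrm_cont
  fun_prop

theorem q2_cont : Continuous fun p : ℂ × ℝ => q2 p.1 p.2 := by
  unfold q2
  have := nrm_cont
  fun_prop

theorem q1_eq_zero {y : ℝ} (hy : y ≤ 0) : q1 0 y = 0 := by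
  have h1 : nrm 0 y = -y := by
    have h := nrm_zero_of_nonneg (y := -y) (by linarith)
    unfold nrm at h ⊢
    rw [neg_sq] at h
    exact h
  unfold q1
  rw [h1]
  simp

theorem q2_eq_zero {y : ℝ} (hy : 0 ≤ y) : q2 0 y = 0 := by
  unfold q2
  rw [nrm_zero_of_nonneg hy]
  simp

theorem q1_zero_nonneg {y : ℝ} (hy : 0 ≤ y) : q1 0 y = y := by
  unfold q1
  rw [nrm_zero_of_nonneg hy, show y * (y + y) / 2 = y ^ 2 by ring, Real.sqrt_sq hy]

theorem q1_of_nrm {A : ℂ} {y : ℝ} (h : nrm A y = 0) : q1 A y = 0 := by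
  unfold q1
  rw [h]
  simp

theorem q2_of_nrm {A : ℂ} {y : ℝ} (h : nrm A y = 0) : q2 A y = 0 := by
  unfold q2
  rw [h]
  simp

/-! ### `Q1`, `Q2` -/

theorem norm_exp_I (x : ℝ) : ‖Complex.exp ((x : ℝ) * Complex.I)‖ = 1 :=
  Complex.norm_exp_ofReal_mul_I x

theorem norm_sigma {σ : ℝ} (hσ : σ = 1 ∨ σ = -1) : ‖(σ : ℂ)‖ = 1 := by
  rcases hσ with rfl | rfl <;> simp

theorem norm_Q1 {σ : ℝ} (hσ : σ = 1 ∨ σ = -1) (A : ℂ) (y b : ℝ) {c : ℂ} (hc : ‖c‖ = 1) :
    ‖Q1 σ A y b c‖ = q1 A y := by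
  unfold Q1
  rw [norm_mul, norm_mul, norm_mul, hc, norm_sigma hσ, norm_exp_I, Complex.norm_real,
    Real.norm_of_nonneg (q1_nonneg A y)]
  ring

theorem norm_Q2 (σ : ℝ) (A : ℂ) (y b : ℝ) {c : ℂ} (hc : ‖c‖ = 1) :
    ‖Q2 σ A y b c‖ = q2 A y := by
  unfold Q2
  rw [norm_mul, norm_mul, hc, norm_exp_I, Complex.norm_real,
    Real.norm_of_nonneg (q2_nonneg A y)]
  ring

theorem norm_Q_sq {σ : ℝ} (hσ : σ = 1 ∨ σ = -1) (A : ℂ) (y b : ℝ) {c : ℂ} (hc : ‖c‖ = 1) :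
    ‖Q1 σ A y b c‖ ^ 2 + ‖Q2 σ A y b c‖ ^ 2 = nrm A y ^ 2 := by
  rw [norm_Q1 hσ A y b hc, norm_Q2 σ A y b hc, q1_sq, q2_sq]
  ring

/-- for `b = 0` the coordinates do not depend on `σ` -/
theorem Q1_b0 {σ : ℝ} (hσ : σ = 1 ∨ σ = -1) {A : ℂ} {y : ℝ} (h : A ≠ 0 ∨ y ≤ 0) (c : ℂ) :
    Q1 σ A y 0 c = c * (A / (‖A‖ : ℂ)) * (q1 A y : ℂ) := by
  unfold Q1
  by_cases hA : A = 0
  · subst hA
    have hy : y ≤ 0 := by
      rcases h with h | h
      · exact absurd rfl h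
      · exact h
    rw [q1_eq_zero hy]
    simp
  · have h1 := Complex.norm_mul_exp_arg_mul_I ((σ : ℂ) * A)
    rw [norm_mul, norm_sigma hσ, one_mul] at h1
    have hn : (‖A‖ : ℂ) ≠ 0 := by
      exact_mod_cast (norm_pos_iff.2 hA).ne'
    have h2 : (σ : ℂ) * σ = 1 := by
      rcases hσ with rfl | rfl <;> norm_num
    have h3 : Complex.exp (((((σ : ℂ) * A).arg * (1 - 0) : ℝ) : ℂ) * Complex.I) =
        (σ : ℂ) * A / (‖A‖ : ℂ) := by
      rw [sub_zero, mul_one, eq_div_iff hn, mul_comm]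
      exact h1
    rw [h3]
    have h4 : c * (σ : ℂ) * ((σ : ℂ) * A / (‖A‖ : ℂ)) = c * (A / (‖A‖ : ℂ)) * ((σ : ℂ) * σ) := by
      ring
    rw [h4, h2, mul_one]

theorem Q2_b0 (σ : ℝ) (A : ℂ) (y : ℝ) (c : ℂ) : Q2 σ A y 0 c = c * (q2 A y : ℂ) := by
  unfold Q2
  rw [mul_zero, neg_zero]
  simp

/-- the first coordinate for `b = 0`, in a form which is continuous off the ray `A = 0 ≤ y` -/
theorem Q1_b0' {σ : ℝ} (hσ : σ = 1 ∨ σ = -1) {A : ℂ} {y : ℝ} (h : y < nrm A y) (c : ℂ) :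
    Q1 σ A y 0 c = c * A * (√(nrm A y / (2 * (nrm A y - y))) : ℝ) := by
  have h0 : A ≠ 0 ∨ y ≤ 0 := by
    by_contra hcon
    push Not at hcon
    obtain ⟨rfl, hy⟩ := hcon
    rw [nrm_zero_of_nonneg hy.le] at h
    exact lt_irrefl _ h
  rw [Q1_b0 hσ h0]
  by_cases hA : A = 0
  · subst hA
    simp
  · have hn : 0 < ‖A‖ := norm_pos_iff.2 hA
    have h1 : q1 A y = ‖A‖ * √(nrm A y / (2 * (nrm A y - y))) := by
      have h2 : nrm A y * (nrm A y + y) / 2 = ‖A‖ ^ 2 * (nrm A y / (2 * (nrm A y - y))) := by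
        have h3 : ‖A‖ ^ 2 = nrm A y ^ 2 - y ^ 2 := by
          rw [nrm_sq]
          ring
        have h4 : nrm A y - y ≠ 0 := by
          intro h5
          linarith
        rw [h3]
        field_simp
        ring
      unfold q1
      rw [h2, Real.sqrt_mul (by positivity), Real.sqrt_sq hn.le]
    have hn' : (‖A‖ : ℂ) ≠ 0 := by exact_mod_cast hn.ne'
    rw [h1]
    push_cast
    field_simp

section Cont

variable {Z : Type} [TopologicalSpace Z] {S : Set Z} {a : Z}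

theorem cwa_exp {g : Z → ℝ} (hg : ContinuousWithinAt g S a) :
    ContinuousWithinAt (fun z => Complex.exp ((g z : ℝ) * Complex.I)) S a := by
  have h1 : Continuous fun x : ℝ => Complex.exp ((x : ℝ) * Complex.I) := by fun_prop
  exact h1.continuousAt.comp_continuousWithinAt hg

theorem cwa_ofReal {g : Z → ℝ} (hg : ContinuousWithinAt g S a) :
    ContinuousWithinAt (fun z => ((g z : ℝ) : ℂ)) S a :=
  Complex.continuous_ofReal.continuousAt.comp_continuousWithinAt hg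

theorem cwa_q1 {A : Z → ℂ} {y : Z → ℝ} (hA : ContinuousWithinAt A S a)
    (hy : ContinuousWithinAt y S a) : ContinuousWithinAt (fun z => q1 (A z) (y z)) S a :=
  ContinuousAt.comp_continuousWithinAt (g := fun p : ℂ × ℝ => q1 p.1 p.2)
    (f := fun z => (A z, y z)) q1_cont.continuousAt (hA.prodMk hy)

theorem cwa_q2 {A : Z → ℂ} {y : Z → ℝ} (hA : ContinuousWithinAt A S a)
    (hy : ContinuousWithinAt y S a) : ContinuousWithinAt (fun z => q2 (A z) (y z)) S a :=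
  ContinuousAt.comp_continuousWithinAt (g := fun p : ℂ × ℝ => q2 p.1 p.2)
    (f := fun z => (A z, y z)) q2_cont.continuousAt (hA.prodMk hy)

theorem cwa_nrm {A : Z → ℂ} {y : Z → ℝ} (hA : ContinuousWithinAt A S a)
    (hy : ContinuousWithinAt y S a) : ContinuousWithinAt (fun z => nrm (A z) (y z)) S a :=
  ContinuousAt.comp_continuousWithinAt (g := fun p : ℂ × ℝ => nrm p.1 p.2)
    (f := fun z => (A z, y z)) nrm_cont.continuousAt (hA.prodMk hy)

/-- a function with norm `g z` is continuous where `g` is continuous and vanishes -/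
theorem cwa_of_norm {f : Z → ℂ} {g : Z → ℝ} (ha : a ∈ S) (hfg : ∀ z ∈ S, ‖f z‖ = g z)
    (hg : ContinuousWithinAt g S a) (h0 : g a = 0) : ContinuousWithinAt f S a := by
  have h1 : f a = 0 := by
    rw [← norm_eq_zero, hfg a ha, h0]
  have h2 : Tendsto g (𝓝[S] a) (𝓝 0) := by
    rw [← h0]
    exact hg
  have h3 : Tendsto f (𝓝[S] a) (𝓝 0) := by
    rw [tendsto_zero_iff_norm_tendsto_zero]
    refine h2.congr' ?_
    filter_upwards [self_mem_nhdsWithin] with z hz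
    exact (hfg z hz).symm
  rw [← h1] at h3
  exact h3

theorem Q_cont1 {A : Z → ℂ} {y b : Z → ℝ} {c : Z → ℂ} {σ : ℝ}
    (hA : ContinuousWithinAt A S a) (hy : ContinuousWithinAt y S a)
    (hc : ContinuousWithinAt c S a) (h1 : (σ : ℂ) * A a ∈ Complex.slitPlane)
    (h2 : ContinuousWithinAt b S a) :
    ContinuousWithinAt (fun z => Q1 σ (A z) (y z) (b z) (c z)) S a ∧
      ContinuousWithinAt (fun z => Q2 σ (A z) (y z) (b z) (c z)) S a := by
  have harg : ContinuousWithinAt (fun z => ((σ : ℂ) * A z).arg) S a :=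
    ContinuousAt.comp_continuousWithinAt (g := Complex.arg)
      (f := fun z => (σ : ℂ) * A z) (Complex.continuousAt_arg h1) (continuousWithinAt_const.mul hA)
  constructor
  · unfold Q1
    exact (((hc.mul continuousWithinAt_const).mul
      (cwa_exp (harg.mul (continuousWithinAt_const.sub h2)))).mul (cwa_ofReal (cwa_q1 hA hy)))
  · unfold Q2
    exact ((hc.mul (cwa_exp ((harg.mul h2).neg))).mul (cwa_ofReal (cwa_q2 hA hy)))

theorem Q_cont2 (ha : a ∈ S) {A : Z → ℂ} {y b : Z → ℝ} {c : Z → ℂ} {σ : ℝ}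
    (hσ : σ = 1 ∨ σ = -1)
    (hA : ContinuousWithinAt A S a) (hy : ContinuousWithinAt y S a)
    (hc : ContinuousWithinAt c S a) (h1 : y a < nrm (A a) (y a))
    (h2 : ∀ᶠ z in 𝓝[S] a, b z = 0) :
    ContinuousWithinAt (fun z => Q1 σ (A z) (y z) (b z) (c z)) S a ∧
      ContinuousWithinAt (fun z => Q2 σ (A z) (y z) (b z) (c z)) S a := by
  have hn := cwa_nrm hA hy
  have hev : ∀ᶠ z in 𝓝[S] a, y z < nrm (A z) (y z) := Filter.Tendsto.eventually_lt hy hn h1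
  have hba : b a = 0 := (mem_of_mem_nhdsWithin ha h2 : a ∈ {z | b z = 0})
  constructor
  · have h4 : ContinuousWithinAt
        (fun z => √(nrm (A z) (y z) / (2 * (nrm (A z) (y z) - y z)))) S a := by
      refine ContinuousAt.comp_continuousWithinAt (g := Real.sqrt)
        (f := fun z => nrm (A z) (y z) / (2 * (nrm (A z) (y z) - y z)))
        Real.continuous_sqrt.continuousAt ?_
      refine hn.div (continuousWithinAt_const.mul (hn.sub hy)) ?_
      have : 0 < nrm (A a) (y a) - y a := by linarith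
      positivity
    have h3 : ContinuousWithinAt
        (fun z => c z * A z * ((√(nrm (A z) (y z) / (2 * (nrm (A z) (y z) - y z))) : ℝ) : ℂ))
        S a := (hc.mul hA).mul (cwa_ofReal h4)
    refine h3.congr_of_eventuallyEq ?_ ?_
    · filter_upwards [h2, hev] with z hz1 hz2
      rw [hz1, Q1_b0' hσ hz2]
    · rw [hba, Q1_b0' hσ h1]
  · have h3 : ContinuousWithinAt (fun z => c z * ((q2 (A z) (y z) : ℝ) : ℂ)) S a :=
      hc.mul (cwa_ofReal (cwa_q2 hA hy))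
    refine h3.congr_of_eventuallyEq ?_ ?_
    · filter_upwards [h2] with z hz1
      rw [hz1, Q2_b0]
    · rw [hba, Q2_b0]

theorem Q_cont3 (ha : a ∈ S) {A : Z → ℂ} {y b : Z → ℝ} {c : Z → ℂ} {σ : ℝ}
    (hA : ContinuousWithinAt A S a) (hy : ContinuousWithinAt y S a)
    (hc : ContinuousWithinAt c S a) (hcn : ∀ z ∈ S, ‖c z‖ = 1)
    (h1 : A a = 0) (h2 : 0 < y a) (h3 : b a = 1) (h4 : ContinuousWithinAt b S a) :
    ContinuousWithinAt (fun z => Q1 σ (A z) (y z) (b z) (c z)) S a ∧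
      ContinuousWithinAt (fun z => Q2 σ (A z) (y z) (b z) (c z)) S a := by
  constructor
  · have h6 : Tendsto (fun z => Real.pi * |1 - b z|) (𝓝[S] a) (𝓝 0) := by
      have h7 : ContinuousWithinAt (fun z => Real.pi * |1 - b z|) S a :=
        continuousWithinAt_const.mul (continuousWithinAt_const.sub h4).abs
      have h8 : Tendsto (fun z => Real.pi * |1 - b z|) (𝓝[S] a) (𝓝 (Real.pi * |1 - b a|)) := h7
      rw [h3] at h8
      simpa using h8
    have h5 : ContinuousWithinAt (fun z => ((σ : ℂ) * A z).arg * (1 - b z)) S a := by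
      have h9 : Tendsto (fun z => ((σ : ℂ) * A z).arg * (1 - b z)) (𝓝[S] a) (𝓝 0) := by
        refine squeeze_zero_norm (fun z => ?_) h6
        rw [norm_mul, Real.norm_eq_abs, Real.norm_eq_abs]
        exact mul_le_mul_of_nonneg_right (Complex.abs_arg_le_pi _) (abs_nonneg _)
      have h10 : ((σ : ℂ) * A a).arg * (1 - b a) = 0 := by
        rw [h3, sub_self, mul_zero]
      rw [← h10] at h9
      exact h9
    unfold Q1
    exact ((hc.mul continuousWithinAt_const).mul (cwa_exp h5)).mul (cwa_ofReal (cwa_q1 hA hy))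
  · refine cwa_of_norm ha (g := fun z => q2 (A z) (y z))
      (fun z hz => norm_Q2 σ _ _ _ (hcn z hz)) (cwa_q2 hA hy) ?_
    show q2 (A a) (y a) = 0
    rw [h1]
    exact q2_eq_zero h2.le

theorem Q_cont4 (ha : a ∈ S) {A : Z → ℂ} {y b : Z → ℝ} {c : Z → ℂ} {σ : ℝ}
    (hσ : σ = 1 ∨ σ = -1)
    (hA : ContinuousWithinAt A S a) (hy : ContinuousWithinAt y S a)
    (hcn : ∀ z ∈ S, ‖c z‖ = 1) (h1 : nrm (A a) (y a) = 0) :
    ContinuousWithinAt (fun z => Q1 σ (A z) (y z) (b z) (c z)) S a ∧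
      ContinuousWithinAt (fun z => Q2 σ (A z) (y z) (b z) (c z)) S a :=
  ⟨cwa_of_norm ha (g := fun z => q1 (A z) (y z)) (fun z hz => norm_Q1 hσ _ _ _ (hcn z hz))
    (cwa_q1 hA hy) (q1_of_nrm h1),
   cwa_of_norm ha (g := fun z => q2 (A z) (y z)) (fun z hz => norm_Q2 σ _ _ _ (hcn z hz))
    (cwa_q2 hA hy) (q2_of_nrm h1)⟩

/-- continuity of the fibre coordinates -/
theorem Q_cont (ha : a ∈ S) {A : Z → ℂ}
    {y b : Z → ℝ} {c : Z → ℂ} {σ : ℝ} (hσ : σ = 1 ∨ σ = -1) (hA : ContinuousWithinAt A S a)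
    (hy : ContinuousWithinAt y S a) (hc : ContinuousWithinAt c S a) (hcn : ∀ z ∈ S, ‖c z‖ = 1)
    (H : ((σ : ℂ) * A a ∈ Complex.slitPlane ∧ ContinuousWithinAt b S a) ∨
      (y a < nrm (A a) (y a) ∧ ∀ᶠ z in 𝓝[S] a, b z = 0) ∨
      (A a = 0 ∧ 0 < y a ∧ b a = 1 ∧ ContinuousWithinAt b S a) ∨ nrm (A a) (y a) = 0) :
    ContinuousWithinAt (fun z => Q1 σ (A z) (y z) (b z) (c z)) S a ∧
      ContinuousWithinAt (fun z => Q2 σ (A z) (y z) (b z) (c z)) S a := by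
  rcases H with ⟨h1, h2⟩ | ⟨h1, h2⟩ | ⟨h1, h2, h3, h4⟩ | h1
  · exact Q_cont1 hA hy hc h1 h2
  · exact Q_cont2 ha hσ hA hy hc h1 h2
  · exact Q_cont3 ha hA hy hc hcn h1 h2 h3 h4
  · exact Q_cont4 ha hσ hA hy hcn h1

end Cont

end SpaceCoord

end Pool.Agent.EvenHomeo
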