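import Pool.Agent.Lib_helper32.EvenHomeo.SpaceCoordB
import Pool.Agent.Lib_helper32.EvenHomeo.SpaceCoordQ

/-!
# SPACECOORD: continuity along the cut and near the complement of the frozen disc
-/

open Set Metric Topology Filter

namespace Pool.Agent.EvenHomeo

open Pool.Agent.MinHomeo (Amb Sph)

namespace SpaceCoord

/-! ### trigonometric facts -/

theorem cr_of_cos {x : ℝ} (h : Real.cos (2 * Real.pi * x) = 1) : cr x = 0 := by
  rw [Real.cos_eq_one_iff] at h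
  obtain ⟨n, hn⟩ := h
  rw [cr_eq_zero_iff]
  refine ⟨n, ?_⟩
  have := Real.pi_pos
  have h1 : 2 * Real.pi * ((n : ℝ) - x) = 0 := by linarith
  have h2 : (n : ℝ) - x = 0 := by
    rcases mul_eq_zero.1 h1 with h3 | h3
    · linarith
    · exact h3
  linarith

theorem cos_two_pi_cr (x : ℝ) : Real.cos (2 * Real.pi * cr x) = Real.cos (2 * Real.pi * x) := by
  have h : 2 * Real.pi * cr x = 2 * Real.pi * x - (round x : ℤ) * (2 * Real.pi) := by
    unfold cr
    ring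
  rw [h, Real.cos_sub_int_mul_two_pi]

theorem cr_of_cos_neg {x : ℝ} (h : Real.cos (2 * Real.pi * x) < 0) : 1 / 20 < |cr x| := by
  by_contra hcon
  rw [not_lt] at hcon
  rw [← cos_two_pi_cr] at h
  have hp := Real.pi_pos
  have h1 := abs_le.1 hcon
  have h2 : 0 < Real.cos (2 * Real.pi * cr x) := by
    apply Real.cos_pos_of_mem_Ioo
    constructor <;> nlinarith
  linarith

theorem sin_of_cr {x : ℝ} (h : cr x = 0) : Real.sin (2 * Real.pi * x) = 0 := by
  obtain ⟨n, rfl⟩ := (cr_eq_zero_iff x).1 h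
  have : 2 * Real.pi * (n : ℝ) = (n * 2 : ℤ) * Real.pi := by
    push_cast
    ring
  rw [this, Real.sin_int_mul_pi]

theorem cos_of_cr {x : ℝ} (h : cr x = 0) : Real.cos (2 * Real.pi * x) = 1 := by
  obtain ⟨n, rfl⟩ := (cr_eq_zero_iff x).1 h
  rw [Real.cos_eq_one_iff]
  exact ⟨n, by ring⟩

theorem sqrt_two_bounds : 1.4 < √2 ∧ √2 < 1.5 := by
  constructor
  · rw [show (1.4 : ℝ) = √(1.4 ^ 2) by rw [Real.sqrt_sq (by norm_num)]]
    exact Real.sqrt_lt_sqrt (by norm_num) (by norm_num)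
  · rw [show (1.5 : ℝ) = √(1.5 ^ 2) by rw [Real.sqrt_sq (by norm_num)]]
    exact Real.sqrt_lt_sqrt (by norm_num) (by norm_num)

/-- the case distinction for the continuity -/
theorem cases_K {r₀ r₁ s θ σ : ℝ} (h0 : 0 < r₀) (h1 : 0 < r₁) (h01 : r₀ ^ 2 + r₁ ^ 2 ≤ 1)
    (hσ : σ = 1 ∨ σ = -1) (hs : 0 ≤ σ * Real.sin (2 * Real.pi * s)) :
    let A : ℂ := ⟨r₁ * Real.sin (2 * Real.pi * (θ + s)), -(r₀ * Real.sin (2 * Real.pi * θ))⟩
    let y : ℝ := (r₀ * Real.cos (2 * Real.pi * θ) + r₁ * Real.cos (2 * Real.pi * (θ + s))) / √2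
      - 9 / 10
    let ρ : ℝ := (r₀ + r₁) / √2 - 9 / 10
    ((σ : ℂ) * A ∈ Complex.slitPlane ∧ ¬ (ρ = 0 ∧ cr s = 0 ∧ cr θ = 0)) ∨
      (y < nrm A y ∧ (ρ < 0 ∨ 1 / 20 < |cr s| ∨ 1 / 20 < |cr θ|)) ∨
      (A = 0 ∧ 0 < y ∧ 0 < ρ ∧ cr s = 0 ∧ cr θ = 0) ∨ nrm A y = 0 := by
  intro A y ρ
  have hsq := sqrt_two_bounds
  have hr0 : r₀ ≤ 1 := by nlinarith
  have hr1 : r₁ ≤ 1 := by nlinarith
  have hsum : Real.sin (2 * Real.pi * (θ + s)) =
      Real.sin (2 * Real.pi * θ) * Real.cos (2 * Real.pi * s) +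
        Real.cos (2 * Real.pi * θ) * Real.sin (2 * Real.pi * s) := by
    rw [mul_add, Real.sin_add]
  have hcsum : Real.cos (2 * Real.pi * (θ + s)) =
      Real.cos (2 * Real.pi * θ) * Real.cos (2 * Real.pi * s) -
        Real.sin (2 * Real.pi * θ) * Real.sin (2 * Real.pi * s) := by
    rw [mul_add, Real.cos_add]
  by_cases hn : nrm A y = 0
  · exact Or.inr (Or.inr (Or.inr hn))
  by_cases hsl : (σ : ℂ) * A ∈ Complex.slitPlane
  · refine Or.inl ⟨hsl, ?_⟩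
    rintro ⟨-, hcs, hcθ⟩
    have h2 : A = 0 := by
      apply Complex.ext
      · show r₁ * Real.sin (2 * Real.pi * (θ + s)) = 0
        rw [hsum, sin_of_cr hcs, sin_of_cr hcθ]
        ring
      · show -(r₀ * Real.sin (2 * Real.pi * θ)) = 0
        rw [sin_of_cr hcθ]
        ring
    rw [h2, mul_zero] at hsl
    exact Complex.zero_notMem_slitPlane hsl
  · rw [Complex.mem_slitPlane_iff] at hsl
    push Not at hsl
    obtain ⟨hre, him⟩ := hsl
    rw [Complex.re_ofReal_mul] at hre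
    rw [Complex.im_ofReal_mul] at him
    have hσ0 : σ ≠ 0 := by rcases hσ with rfl | rfl <;> norm_num
    have hA1 : A.re = r₁ * Real.sin (2 * Real.pi * (θ + s)) := rfl
    have hA2 : A.im = -(r₀ * Real.sin (2 * Real.pi * θ)) := rfl
    have hsin : Real.sin (2 * Real.pi * θ) = 0 := by
      rw [hA2] at him
      rcases mul_eq_zero.1 him with h2 | h2
      · exact absurd h2 hσ0
      · have h3 : r₀ * Real.sin (2 * Real.pi * θ) = 0 := by linarith
        rcases mul_eq_zero.1 h3 with h4 | h4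
        · exact absurd h4 h0.ne'
        · exact h4
    have hcc : Real.cos (2 * Real.pi * θ) = 1 ∨ Real.cos (2 * Real.pi * θ) = -1 := by
      have h2 := Real.sin_sq_add_cos_sq (2 * Real.pi * θ)
      rw [hsin] at h2
      have h3 : (Real.cos (2 * Real.pi * θ) - 1) * (Real.cos (2 * Real.pi * θ) + 1) = 0 := by
        nlinarith
      rcases mul_eq_zero.1 h3 with h4 | h4
      · left; linarith
      · right; linarith
    have hnn := nrm_nonneg A y
    have hy_neg : y < 0 → y < nrm A y := fun h => lt_of_lt_of_le h hnn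
    rcases hcc with hc | hc
    · -- `cos = 1`
      have hss : Real.sin (2 * Real.pi * s) = 0 := by
        rw [hA1, hsum, hsin, hc] at hre
        have h2 : σ * Real.sin (2 * Real.pi * s) ≤ 0 := by
          by_contra hcon
          push Not at hcon
          have : 0 < r₁ * (σ * Real.sin (2 * Real.pi * s)) := mul_pos h1 hcon
          nlinarith
        have h3 : σ * Real.sin (2 * Real.pi * s) = 0 := le_antisymm h2 hs
        rcases mul_eq_zero.1 h3 with h4 | h4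
        · exact absurd h4 hσ0
        · exact h4
      have hA0 : A = 0 := by
        apply Complex.ext
        · show r₁ * Real.sin (2 * Real.pi * (θ + s)) = 0
          rw [hsum, hsin, hss]
          ring
        · show -(r₀ * Real.sin (2 * Real.pi * θ)) = 0
          rw [hsin]
          ring
      have hcs : Real.cos (2 * Real.pi * s) = 1 ∨ Real.cos (2 * Real.pi * s) = -1 := by
        have h2 := Real.sin_sq_add_cos_sq (2 * Real.pi * s)
        rw [hss] at h2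
        have h3 : (Real.cos (2 * Real.pi * s) - 1) * (Real.cos (2 * Real.pi * s) + 1) = 0 := by
          nlinarith
        rcases mul_eq_zero.1 h3 with h4 | h4
        · left; linarith
        · right; linarith
      rcases hcs with hcs | hcs
      · have hy : y = ρ := by
          show (r₀ * Real.cos (2 * Real.pi * θ) + r₁ * Real.cos (2 * Real.pi * (θ + s))) / √2
            - 9 / 10 = (r₀ + r₁) / √2 - 9 / 10
          rw [hcsum, hc, hcs, hsin]
          ring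
        rcases lt_trichotomy ρ 0 with hρ | hρ | hρ
        · exact Or.inr (Or.inl ⟨hy_neg (by rw [hy]; exact hρ), Or.inl hρ⟩)
        · exfalso
          apply hn
          rw [hA0, hy, hρ]
          exact nrm_zero_of_nonneg le_rfl
        · exact Or.inr (Or.inr (Or.inl ⟨hA0, by rw [hy]; exact hρ, hρ, cr_of_cos hcs,
            cr_of_cos hc⟩))
      · refine Or.inr (Or.inl ⟨hy_neg ?_, Or.inr (Or.inl (cr_of_cos_neg (by rw [hcs]; norm_num)))⟩)
        show (r₀ * Real.cos (2 * Real.pi * θ) + r₁ * Real.cos (2 * Real.pi * (θ + s))) / √2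
          - 9 / 10 < 0
        rw [hcsum, hc, hcs, hsin, sub_neg, div_lt_iff₀ (by linarith)]
        nlinarith
    · refine Or.inr (Or.inl ⟨hy_neg ?_, Or.inr (Or.inr (cr_of_cos_neg (by rw [hc]; norm_num)))⟩)
      show (r₀ * Real.cos (2 * Real.pi * θ) + r₁ * Real.cos (2 * Real.pi * (θ + s))) / √2
        - 9 / 10 < 0
      have h2 := Real.cos_le_one (2 * Real.pi * (θ + s))
      have h3 : r₁ * Real.cos (2 * Real.pi * (θ + s)) ≤ r₁ := by nlinarith
      rw [hc, sub_neg, div_lt_iff₀ (by linarith)]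
      nlinarith

/-! ### the base sphere -/

variable {k : ℕ}

theorem c0_cont : Continuous (c0 : B_ k → ℂ) :=
  (WithLp.continuous_fst 2 ℂ (G_ k)).comp continuous_subtype_val

theorem c1_cont : Continuous (c1 : B_ k → ℂ) :=
  (WithLp.continuous_fst 2 ℂ (F_ k)).comp
    ((WithLp.continuous_snd 2 ℂ (G_ k)).comp continuous_subtype_val)

theorem cw_cont : Continuous (cw : B_ k → F_ k) :=
  (WithLp.continuous_snd 2 ℂ (F_ k)).comp
    ((WithLp.continuous_snd 2 ℂ (G_ k)).comp continuous_subtype_val)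

theorem c_norm (z : B_ k) : ‖c0 z‖ ^ 2 + ‖c1 z‖ ^ 2 + ‖cw z‖ ^ 2 = 1 := by
  have h1 := MinHomeo.SphChart.sph_norm z
  have h2 : ‖(z : Amb (G_ k)).snd‖ ^ 2 = ‖c1 z‖ ^ 2 + ‖cw z‖ ^ 2 :=
    WithLp.prod_norm_sq_eq_of_L2 _
  rw [h2] at h1
  have h3 : ‖(z : Amb (G_ k)).fst‖ = ‖c0 z‖ := rfl
  rw [h3] at h1
  linarith

theorem c_ext {z z' : B_ k} (h0 : c0 z = c0 z') (h1 : c1 z = c1 z') (h2 : cw z = cw z') :
    z = z' := by
  apply Subtype.ext
  refine MinHomeo.SphChart.ext_amb h0 ?_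
  exact MinHomeo.SphChart.ext_amb (F := F_ k) (p := (z : Amb (G_ k)).snd)
    (q := (z' : Amb (G_ k)).snd) h1 h2

theorem sphere_id (z : B_ k) :
    ‖Yc z‖ ^ 2 + (Y3 z + 9 / 10) ^ 2 + X0 z ^ 2 + ‖cw z‖ ^ 2 = 1 := by
  have h1 := c_norm z
  have h2 : ‖Yc z‖ ^ 2 = (c1 z).im ^ 2 + (c0 z).im ^ 2 := by
    rw [Complex.sq_norm, Complex.normSq_apply]
    show (c1 z).im * (c1 z).im + -(c0 z).im * -(c0 z).im = _
    ring
  have h3 : ‖c0 z‖ ^ 2 = (c0 z).re ^ 2 + (c0 z).im ^ 2 := by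
    rw [Complex.sq_norm, Complex.normSq_apply]
    ring
  have h4 : ‖c1 z‖ ^ 2 = (c1 z).re ^ 2 + (c1 z).im ^ 2 := by
    rw [Complex.sq_norm, Complex.normSq_apply]
    ring
  have h5 : (√2 : ℝ) ^ 2 = 2 := Real.sq_sqrt (by norm_num)
  have h6 : (Y3 z + 9 / 10) ^ 2 = ((c0 z).re + (c1 z).re) ^ 2 / 2 := by
    unfold Y3
    rw [sub_add_cancel, div_pow, h5]
  have h7 : X0 z ^ 2 = ((c0 z).re - (c1 z).re) ^ 2 / 2 := by
    unfold X0
    rw [div_pow, h5]
  rw [h2, h6, h7]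
  nlinarith

theorem Yc_cont : Continuous (Yc : B_ k → ℂ) := by
  have h1 : (Yc : B_ k → ℂ) = fun z => ((c1 z).im : ℂ) + ((-(c0 z).im : ℝ) : ℂ) * Complex.I := by
    funext z
    apply Complex.ext <;> simp [Yc]
  rw [h1]
  have h2 := c0_cont (k := k)
  have h3 := c1_cont (k := k)
  fun_prop

theorem Y3_cont : Continuous (Y3 : B_ k → ℝ) := by
  unfold Y3
  have h2 := c0_cont (k := k)
  have h3 := c1_cont (k := k)
  fun_prop

theorem X0_cont : Continuous (X0 : B_ k → ℝ) := by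
  unfold X0
  have h2 := c0_cont (k := k)
  have h3 := c1_cont (k := k)
  fun_prop

theorem eT_cont : Continuous eT := by
  unfold eT
  exact continuous_subtype_val.comp AddCircle.continuous_toCircle

theorem norm_eT (υ : T) : ‖eT υ‖ = 1 := Circle.norm_coe _

theorem sB_pm (z : B_ k) : sB z = 1 ∨ sB z = -1 := by
  unfold sB
  split_ifs
  · exact Or.inl rfl
  · exact Or.inr rfl

theorem bB_bounds (z : B_ k) : 0 ≤ bB z ∧ bB z ≤ 1 := bpar_bounds _ _ _

theorem X_ne (z : B_ k) (h : nrm (Yc z) (Y3 z) = 0) : X0 z ≠ 0 ∨ cw z ≠ 0 := by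
  by_contra hcon
  push Not at hcon
  have h1 := sphere_id z
  have h2 := nrm_sq (Yc z) (Y3 z)
  rw [h] at h2
  have h3 : Y3 z = 0 := by nlinarith [sq_nonneg ‖Yc z‖, sq_nonneg (Y3 z)]
  have h4 : ‖Yc z‖ ^ 2 = 0 := by nlinarith [sq_nonneg ‖Yc z‖, sq_nonneg (Y3 z)]
  rw [h3, h4, hcon.1, hcon.2, norm_zero] at h1
  norm_num at h1

/-- the set of base parameters -/
abbrev Y_ (k : ℕ) : Type :=
  {y : ℝ × ℝ × F_ k // 0 < y.1 ∧ 0 < y.2.1 ∧ y.1 ^ 2 + y.2.1 ^ 2 + ‖y.2.2‖ ^ 2 = 1}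

section WithBase

variable {X : Type} [NormedAddCommGroup X] [NormedSpace ℝ X] (b : Base X (Y_ k) (B_ k))

/-- the base is the explicit one -/
def IsStd : Prop :=
  (∀ y s θ, Par (b.β (y, s, θ)) y.1.1 y.1.2.1 y.1.2.2 s θ) ∧
    ∀ y, b.ρ y = (y.1.1 + y.1.2.1) / √2 - 9 / 10

/-- the map in the coordinates `(y, s, θ, υ)`, with a fixed sign `σ` -/
noncomputable def KQ (σ : ℝ) (q : Y_ k × ℝ × ℝ × T) : OnePoint (N_ k) :=
  Phi (Q1 σ (Yc (b.β (q.1, q.2.1, q.2.2.1))) (Y3 (b.β (q.1, q.2.1, q.2.2.1)))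
      (bpar (b.ρ q.1) q.2.1 q.2.2.1) (eT q.2.2.2))
    (Q2 σ (Yc (b.β (q.1, q.2.1, q.2.2.1))) (Y3 (b.β (q.1, q.2.1, q.2.2.1)))
      (bpar (b.ρ q.1) q.2.1 q.2.2.1) (eT q.2.2.2))
    (nrm (Yc (b.β (q.1, q.2.1, q.2.2.1))) (Y3 (b.β (q.1, q.2.1, q.2.2.1))))
    (X0 (b.β (q.1, q.2.1, q.2.2.1))) (cw (b.β (q.1, q.2.1, q.2.2.1)))

theorem KQ_cont (hPar : ParFacts_Stmt k) (hPhi : PhiCont_Stmt k) (hb : IsStd b) {σ : ℝ}
    (hσ : σ = 1 ∨ σ = -1) :
    ContinuousOn (KQ b σ) {q | 0 ≤ σ * Real.sin (2 * Real.pi * q.2.1)} := by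
  intro q hq
  obtain ⟨hβ, hρ⟩ := hb
  obtain ⟨y, s, θ, υ⟩ := q
  have hp := hPar _ _ _ _ _ _ (hβ y s θ)
  obtain ⟨hp1, hp2, hp3, -⟩ := hp
  obtain ⟨hr0, hr1, -⟩ := hβ y s θ
  have hcase := cases_K (r₀ := y.1.1) (r₁ := y.1.2.1) (s := s) (θ := θ) hr0 hr1
    (by nlinarith [sq_nonneg ‖y.1.2.2‖]) hσ hq
  simp only at hcase
  rw [← hp2, ← hp3, ← hρ y] at hcase
  have hz : Continuous fun q : Y_ k × ℝ × ℝ × T => b.β (q.1, q.2.1, q.2.2.1) :=
    b.β_cont.comp (by fun_prop)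
  have hcb : Continuous fun q : Y_ k × ℝ × ℝ × T => ((b.ρ q.1, q.2.1, q.2.2.1) : ℝ × ℝ × ℝ) := by
    have := b.ρ_cont
    fun_prop
  have hbc : ¬ (b.ρ y = 0 ∧ cr s = 0 ∧ cr θ = 0) → ContinuousWithinAt
      (fun q : Y_ k × ℝ × ℝ × T => bpar (b.ρ q.1) q.2.1 q.2.2.1)
      {q | 0 ≤ σ * Real.sin (2 * Real.pi * q.2.1)} (y, s, θ, υ) := by
    intro h
    exact (ContinuousAt.comp (g := fun x : ℝ × ℝ × ℝ => bpar x.1 x.2.1 x.2.2)
      (f := fun q : Y_ k × ℝ × ℝ × T => ((b.ρ q.1, q.2.1, q.2.2.1) : ℝ × ℝ × ℝ))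
      (x := (y, s, θ, υ)) (bpar_continuousAt h) hcb.continuousAt).continuousWithinAt
  have hev : (b.ρ y < 0 ∨ 1 / 20 < |cr s| ∨ 1 / 20 < |cr θ|) →
      ∀ᶠ q : Y_ k × ℝ × ℝ × T in 𝓝[{q | 0 ≤ σ * Real.sin (2 * Real.pi * q.2.1)}] (y, s, θ, υ),
        bpar (b.ρ q.1) q.2.1 q.2.2.1 = 0 := by
    intro h
    apply mem_nhdsWithin_of_mem_nhds
    have hc1 : Continuous fun q : Y_ k × ℝ × ℝ × T => b.ρ q.1 := b.ρ_cont.comp continuous_fst
    have hc2 : Continuous fun q : Y_ k × ℝ × ℝ × T => |cr q.2.1| :=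
      cr_continuous_abs.comp (by fun_prop)
    have hc3 : Continuous fun q : Y_ k × ℝ × ℝ × T => |cr q.2.2.1| :=
      cr_continuous_abs.comp (by fun_prop)
    rcases h with h | h | h
    · filter_upwards [(hc1.tendsto (y, s, θ, υ)).eventually_lt_const h] with q hq
      exact bpar_zero (Or.inl hq.le)
    · filter_upwards [(hc2.tendsto (y, s, θ, υ)).eventually_const_lt h] with q hq
      exact bpar_zero (Or.inr (Or.inl hq.le))
    · filter_upwards [(hc3.tendsto (y, s, θ, υ)).eventually_const_lt h] with q hq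
      exact bpar_zero (Or.inr (Or.inr hq.le))
  have hQ := Q_cont (Z := Y_ k × ℝ × ℝ × T)
    (S := {q | 0 ≤ σ * Real.sin (2 * Real.pi * q.2.1)}) (a := (y, s, θ, υ)) hq
    (A := fun q => Yc (b.β (q.1, q.2.1, q.2.2.1))) (y := fun q => Y3 (b.β (q.1, q.2.1, q.2.2.1)))
    (b := fun q => bpar (b.ρ q.1) q.2.1 q.2.2.1) (c := fun q => eT q.2.2.2) hσ
    (Yc_cont.comp hz).continuousAt.continuousWithinAt
    (Y3_cont.comp hz).continuousAt.continuousWithinAt
    (eT_cont.comp (by fun_prop)).continuousAt.continuousWithinAt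
    (fun q _ => norm_eT _) (by
      rcases hcase with ⟨h1, h2⟩ | ⟨h1, h2⟩ | ⟨h1, h2, h3, h4, h5⟩ | h1
      · exact Or.inl ⟨h1, hbc h2⟩
      · exact Or.inr (Or.inl ⟨h1, hev h2⟩)
      · refine Or.inr (Or.inr (Or.inl ⟨h1, h2, bpar_one h3 h4 h5, hbc ?_⟩))
        rintro ⟨h6, -⟩
        exact h3.ne' h6
      · exact Or.inr (Or.inr (Or.inr h1)))
  exact hPhi (Y_ k × ℝ × ℝ × T) _ (y, s, θ, υ) _ _ _ _ _ hq hQ.1 hQ.2
    (cwa_nrm (Yc_cont.comp hz).continuousAt.continuousWithinAt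
      (Y3_cont.comp hz).continuousAt.continuousWithinAt)
    (X0_cont.comp hz).continuousAt.continuousWithinAt
    (cw_cont.comp hz).continuousAt.continuousWithinAt
    (fun q _ => norm_Q_sq hσ _ _ _ (norm_eT _)) (fun q _ => nrm_nonneg _ _)
    (fun h => X_ne _ h)

/-- on the right half the cut map is `KQ 1` -/
theorem cut_right (hPar : ParFacts_Stmt k) (hb : IsStd b) {q : Y_ k × ℝ × ℝ × T}
    (h0 : 0 ≤ q.2.1) (h1 : q.2.1 ≤ 1 / 2) :
    b.cut (1 / 20) (hh sB bB) q = KQ b 1 q := by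
  obtain ⟨y, s, θ, υ⟩ := q
  simp only at h0 h1
  obtain ⟨-, -, -, hp4, hp5, -⟩ := hPar _ _ _ _ _ _ (hb.1 y s θ)
  unfold Base.cut hh KQ
  simp only
  rw [if_pos (by linarith), add_zero, hp4, hp5 h0 h1, hb.2 y]

/-- for `b = 0` the sign does not matter -/
theorem Phi_sign {A : ℂ} {y : ℝ} (h : A ≠ 0 ∨ y ≤ 0) {σ σ' : ℝ} (hσ : σ = 1 ∨ σ = -1)
    (hσ' : σ' = 1 ∨ σ' = -1) (c : ℂ) (r x : ℝ) (w : F_ k) :
    Phi (Q1 σ A y 0 c) (Q2 σ A y 0 c) r x w = Phi (Q1 σ' A y 0 c) (Q2 σ' A y 0 c) r x w := by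
  rw [Q1_b0 hσ h, Q1_b0 hσ' h, Q2_b0, Q2_b0]

/-- on the left half the cut map is `KQ (-1)` -/
theorem cut_left (hPar : ParFacts_Stmt k) (hJump : Jump_Stmt) (hb : IsStd b)
    {q : Y_ k × ℝ × ℝ × T} (h0 : 1 / 2 ≤ q.2.1) (h1 : q.2.1 ≤ 1) :
    b.cut (1 / 20) (hh sB bB) q = KQ b (-1) q := by
  obtain ⟨y, s, θ, υ⟩ := q
  simp only at h0 h1
  have hsq := sqrt_two_bounds
  obtain ⟨hr0, hr1, -⟩ := hb.1 y s θ
  rcases eq_or_lt_of_le h0 with h2 | h2
  · -- `s = 1/2`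
    rw [cut_right b hPar hb (q := (y, s, θ, υ)) (by simp only; linarith) (by simp only; linarith)]
    have hcs : |cr s| = 1 / 2 := by
      rw [← h2]
      have h3 : cr (1 / 2 : ℝ) = 1 / 2 - 1 := by
        unfold cr
        rw [show round (1 / 2 : ℝ) = 1 by rw [round_eq]; norm_num]
        norm_num
      rw [h3]
      norm_num [abs_of_neg]
    have hb0 : bpar (b.ρ y) s θ = 0 := bpar_zero (Or.inr (Or.inl (by rw [hcs]; norm_num)))
    obtain ⟨hp1, hp2, hp3, -⟩ := hPar _ _ _ _ _ _ (hb.1 y s θ)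
    unfold KQ
    simp only
    rw [hb0]
    apply Phi_sign _ (Or.inl rfl) (Or.inr rfl)
    by_contra hcon
    push Not at hcon
    obtain ⟨hA, hy⟩ := hcon
    rw [hp2] at hA
    rw [hp3, ← h2] at hy
    have h3 : Real.sin (2 * Real.pi * θ) = 0 := by
      have h4 := congrArg Complex.im hA
      simp only [Complex.zero_im] at h4
      have h5 : y.1.1 * Real.sin (2 * Real.pi * θ) = 0 := by linarith
      rcases mul_eq_zero.1 h5 with h6 | h6
      · exact absurd h6 hr0.ne'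
      · exact h6
    have h4 : Real.cos (2 * Real.pi * (θ + 1 / 2)) = -Real.cos (2 * Real.pi * θ) := by
      rw [show 2 * Real.pi * (θ + 1 / 2) = 2 * Real.pi * θ + Real.pi by ring, Real.cos_add_pi]
    rw [h4] at hy
    have h5 := Real.cos_le_one (2 * Real.pi * θ)
    have h6 := Real.neg_one_le_cos (2 * Real.pi * θ)
    have h7 : 9 / 10 < (y.1.1 * Real.cos (2 * Real.pi * θ) + y.1.2.1 *
      -Real.cos (2 * Real.pi * θ)) / √2 := by linarith
    rw [lt_div_iff₀ (by linarith)] at h7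
    have h8 : y.1.1 ≤ 1 := by nlinarith [sq_nonneg ‖y.1.2.2‖, sq_nonneg y.1.2.1]
    have h9 : y.1.2.1 ≤ 1 := by nlinarith [sq_nonneg ‖y.1.2.2‖, sq_nonneg y.1.1]
    nlinarith
  · rcases eq_or_lt_of_le h1 with h3 | h3
    · -- `s = 1`
      subst h3
      have hz : b.β (y, 1, θ) = b.β (y, 0, θ) := by
        rw [b.β_eq]
        exact ⟨rfl, ⟨-1, by push_cast; ring⟩, ⟨0, by simp⟩⟩
      obtain ⟨hp1, hp2, hp3, hp4, hp5, -⟩ := hPar _ _ _ _ _ _ (hb.1 y 0 θ)
      have hJ := hJump y.1.1 y.1.2.1 θ υ hr0 hr1 (by nlinarith [sq_nonneg ‖y.1.2.2‖])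
      rw [add_zero] at hp2 hp3
      rw [← hp2, ← hp3, ← hb.2 y] at hJ
      have hb1 : bpar (b.ρ y) 1 θ = bpar (b.ρ y) 0 θ := by
        unfold bpar
        have : cr 1 = cr 0 := by
          have := cr_add_int 0 1
          push_cast at this
          rw [zero_add] at this
          exact this
        rw [this]
      unfold Base.cut hh KQ
      simp only
      rw [if_neg (lt_irrefl _), hz, hp4, hp5 le_rfl (by norm_num), hb1, hJ.1, hJ.2, ← hb.2 y]
    · obtain ⟨-, -, -, hp4, -, hp6⟩ := hPar _ _ _ _ _ _ (hb.1 y s θ)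
      unfold Base.cut hh KQ
      simp only
      rw [if_pos h3, add_zero, hp4, hp6 h2 h3, hb.2 y]

/-- continuity of the cut map -/
theorem kcont (hPar : ParFacts_Stmt k) (hPhi : PhiCont_Stmt k) (hJump : Jump_Stmt)
    (hb : IsStd b) :
    ContinuousOn (b.cut (1 / 20) (hh sB bB)) {q | 0 ≤ q.2.1 ∧ q.2.1 ≤ 1} := by
  have hc : Continuous fun q : Y_ k × ℝ × ℝ × T => q.2.1 := by fun_prop
  have h1 : ContinuousOn (b.cut (1 / 20) (hh sB bB))
      ({q | 0 ≤ q.2.1} ∩ {q | q.2.1 ≤ 1 / 2}) := by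
    refine ((KQ_cont b hPar hPhi hb (Or.inl rfl)).mono ?_).congr ?_
    · rintro q ⟨hq1, hq2⟩
      simp only [mem_setOf_eq] at hq1 hq2 ⊢
      have := Real.pi_pos
      rw [one_mul]
      apply Real.sin_nonneg_of_nonneg_of_le_pi
      · positivity
      · nlinarith
    · rintro q ⟨hq1, hq2⟩
      exact cut_right b hPar hb hq1 hq2
  have h2 : ContinuousOn (b.cut (1 / 20) (hh sB bB))
      ({q | 1 / 2 ≤ q.2.1} ∩ {q | q.2.1 ≤ 1}) := by
    refine ((KQ_cont b hPar hPhi hb (Or.inr rfl)).mono ?_).congr ?_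
    · rintro q ⟨hq1, hq2⟩
      simp only [mem_setOf_eq] at hq1 hq2 ⊢
      have := Real.pi_pos
      have h3 : Real.sin (2 * Real.pi * q.2.1) = -Real.sin (2 * Real.pi * q.2.1 - Real.pi) := by
        rw [Real.sin_sub_pi, neg_neg]
      rw [h3]
      have h4 : 0 ≤ Real.sin (2 * Real.pi * q.2.1 - Real.pi) := by
        apply Real.sin_nonneg_of_nonneg_of_le_pi <;> nlinarith
      linarith
    · rintro q ⟨hq1, hq2⟩
      exact cut_left b hPar hJump hb hq1 hq2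
  have h3 := h1.union_of_isClosed h2
    ((isClosed_le continuous_const hc).inter (isClosed_le hc continuous_const))
    ((isClosed_le continuous_const hc).inter (isClosed_le hc continuous_const))
  refine h3.mono ?_
  rintro q ⟨hq1, hq2⟩
  rcases le_total q.2.1 (1 / 2) with h | h
  · exact Or.inl ⟨hq1, h⟩
  · exact Or.inr ⟨h, hq2⟩

end WithBase

end SpaceCoord

end Pool.Agent.EvenHomeo
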