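import Pool.Agent.Lib_helper32.EvenHomeo.SpaceCoordO
import Pool.Agent.Lib_helper53.EvenHomeo.ParFacts
import Pool.Agent.Lib_helper53.EvenHomeo.Disc
import Pool.Agent.Lib_helper76.EvenHomeo.Jump
import Pool.Agent.Lib_helper74.EvenHomeo.PhiCont
import Pool.Agent.Lib_helper33.EvenHomeo.HhSurj
import Pool.Agent.Lib_helper33.EvenHomeo.HhInj
import Pool.Agent.Lib_helper79.EvenHomeo.SpaceBase

/-!
# SPACE: the base and the initial coordinate system
-/

namespace Pool.Agent.EvenHomeo

/-- SPACE -/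
theorem space : Space_Stmt :=
  SpaceCoord.space_of SpaceCoord.parFacts SpaceCoord.phiCont SpaceCoord.jump SpaceCoord.disc
    SpaceCoord.hhSurj SpaceCoord.hhInj fun k => ⟨SpaceCoord.sphBase k, SpaceCoord.sphBase_std k⟩

end Pool.Agent.EvenHomeo
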