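import Pool.Agent.Lib_helper32.EvenHomeo.SpaceCoordDefs2

/-!
# SPACECOORD: the function `b`
-/

open Set Metric Topology Filter

namespace Pool.Agent.EvenHomeo

namespace SpaceCoord

theorem bpar_of_nonpos {ρ : ℝ} (h : ρ ≤ 0) (s θ : ℝ) : bpar ρ s θ = 0 := by
  unfold bpar
  rw [if_pos h]

theorem bpar_of_pos {ρ : ℝ} (h : 0 < ρ) (s θ : ℝ) :
    bpar ρ s θ = max 0 (1 - max |cr s| |cr θ| / min (1 / 20) ρ) := by
  unfold bpar
  rw [if_neg (not_le.2 h)]

theorem bpar_bounds (ρ s θ : ℝ) : 0 ≤ bpar ρ s θ ∧ bpar ρ s θ ≤ 1 := by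
  rcases le_or_gt ρ 0 with h | h
  · rw [bpar_of_nonpos h]
    norm_num
  · rw [bpar_of_pos h]
    have h1 : 0 < min (1 / 20) ρ := lt_min (by norm_num) h
    refine ⟨le_max_left _ _, max_le (by norm_num) ?_⟩
    have : 0 ≤ max |cr s| |cr θ| / min (1 / 20) ρ := by positivity
    linarith

theorem bpar_zero_of_le {ρ s θ : ℝ} (hρ : 0 < ρ) (h : min (1 / 20) ρ ≤ max |cr s| |cr θ|) :
    bpar ρ s θ = 0 := by
  rw [bpar_of_pos hρ]
  have h1 : 0 < min (1 / 20) ρ := lt_min (by norm_num) hρ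
  apply max_eq_left
  have : 1 ≤ max |cr s| |cr θ| / min (1 / 20) ρ := by rwa [le_div_iff₀ h1, one_mul]
  linarith

theorem bpar_zero {ρ s θ : ℝ} (h : ρ ≤ 0 ∨ 1 / 20 ≤ |cr s| ∨ 1 / 20 ≤ |cr θ|) :
    bpar ρ s θ = 0 := by
  rcases le_or_gt ρ 0 with h0 | h0
  · exact bpar_of_nonpos h0 s θ
  · apply bpar_zero_of_le h0
    rcases h with h | h | h
    · linarith
    · exact (min_le_left _ _).trans (h.trans (le_max_left _ _))
    · exact (min_le_left _ _).trans (h.trans (le_max_right _ _))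

theorem bpar_one {ρ s θ : ℝ} (h : 0 < ρ) (hs : cr s = 0) (hθ : cr θ = 0) : bpar ρ s θ = 1 := by
  rw [bpar_of_pos h, hs, hθ]
  simp

theorem bpar_continuousAt {ρ s θ : ℝ} (h : ¬ (ρ = 0 ∧ cr s = 0 ∧ cr θ = 0)) :
    ContinuousAt (fun q : ℝ × ℝ × ℝ => bpar q.1 q.2.1 q.2.2) (ρ, s, θ) := by
  have hc1 : Continuous fun q : ℝ × ℝ × ℝ => |cr q.2.1| :=
    cr_continuous_abs.comp (continuous_fst.comp continuous_snd)
  have hc2 : Continuous fun q : ℝ × ℝ × ℝ => |cr q.2.2| :=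
    cr_continuous_abs.comp (continuous_snd.comp continuous_snd)
  have hc3 : Continuous fun q : ℝ × ℝ × ℝ => max |cr q.2.1| |cr q.2.2| := hc1.max hc2
  rcases lt_trichotomy ρ 0 with h0 | h0 | h0
  · have hev : ∀ᶠ q : ℝ × ℝ × ℝ in 𝓝 (ρ, s, θ), q.1 < 0 :=
      (continuous_fst.tendsto (ρ, s, θ)).eventually_lt_const h0
    refine (continuousAt_const (y := (0 : ℝ))).congr ?_
    filter_upwards [hev] with q hq
    rw [bpar_of_nonpos hq.le]
  · subst h0
    have h1 : 0 < max |cr s| |cr θ| := by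
      by_contra hcon
      rw [not_lt] at hcon
      apply h
      refine ⟨rfl, ?_, ?_⟩
      · rw [← abs_eq_zero]
        exact le_antisymm ((le_max_left _ _).trans hcon) (abs_nonneg _)
      · rw [← abs_eq_zero]
        exact le_antisymm ((le_max_right _ _).trans hcon) (abs_nonneg _)
    have hev : ∀ᶠ q : ℝ × ℝ × ℝ in 𝓝 ((0 : ℝ), s, θ), q.1 < max |cr q.2.1| |cr q.2.2| :=
      Filter.Tendsto.eventually_lt (continuous_fst.tendsto ((0 : ℝ), s, θ))
        (hc3.tendsto ((0 : ℝ), s, θ)) h1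
    refine (continuousAt_const (y := (0 : ℝ))).congr ?_
    filter_upwards [hev] with q hq
    rcases le_or_gt q.1 0 with h2 | h2
    · rw [bpar_of_nonpos h2]
    · rw [bpar_zero_of_le h2 ((min_le_right _ _).trans hq.le)]
  · have hev : ∀ᶠ q : ℝ × ℝ × ℝ in 𝓝 (ρ, s, θ), 0 < q.1 :=
      (continuous_fst.tendsto (ρ, s, θ)).eventually_const_lt h0
    have h1 : 0 < min (1 / 20) ρ := lt_min (by norm_num) h0
    have h2 : ContinuousAt (fun q : ℝ × ℝ × ℝ =>
        max 0 (1 - max |cr q.2.1| |cr q.2.2| / min (1 / 20) q.1)) (ρ, s, θ) := by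
      refine ContinuousAt.sup continuousAt_const (continuousAt_const.sub ?_)
      refine hc3.continuousAt.div ?_ h1.ne'
      exact (continuous_const.min continuous_fst).continuousAt
    refine h2.congr ?_
    filter_upwards [hev] with q hq
    rw [bpar_of_pos hq]

theorem bpar_stmt : Bpar_Stmt :=
  ⟨bpar_bounds, fun _ _ _ h => bpar_zero h, fun _ _ _ h hs hθ => bpar_one h hs hθ,
    fun _ _ _ h => bpar_continuousAt h⟩

end SpaceCoord

end Pool.Agent.EvenHomeo
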