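import Pool.Agent.Lib_helper30.EvenHomeo.Calc
import Pool.Agent.Lib_helper71.MinHomeo.SphChart

/-!
# SPACECOORD, definitions: the explicit coordinate system on Euclidean space

The base is the unit sphere of `ℂ × (ℂ × F)`, `F = EuclideanSpace ℂ (Fin k)`; a point has
coordinates `z₀, z₁, w`.  The point of `OnePoint (ℝ × ℂ × ℝ × F)` attached to `(z, υ)` is
`Phi (Q1 ..) (Q2 ..) |Y| X₀ w`.
-/

open Set Metric Topology

namespace Pool.Agent.EvenHomeo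

open Pool.Agent.MinHomeo (Amb Sph)

namespace SpaceCoord

/-- `ℂ^k` -/
abbrev F_ (k : ℕ) : Type := EuclideanSpace ℂ (Fin k)

/-- `ℂ × ℂ^k` -/
abbrev G_ (k : ℕ) : Type := WithLp 2 (ℂ × F_ k)

/-- the base sphere -/
abbrev B_ (k : ℕ) : Type := Sph (G_ k)

/-- the target space -/
abbrev N_ (k : ℕ) : Type := ℝ × ℂ × ℝ × F_ k

variable {k : ℕ}

/-- the coordinate `z₀` -/
def c0 (z : B_ k) : ℂ := (z : Amb (G_ k)).fst

/-- the coordinate `z₁` -/
def c1 (z : B_ k) : ℂ := (z : Amb (G_ k)).snd.fst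

/-- the coordinate `w` -/
def cw (z : B_ k) : F_ k := (z : Amb (G_ k)).snd.snd

/-- `Y₁ + i Y₂` -/
noncomputable def Yc (z : B_ k) : ℂ := ⟨(c1 z).im, -(c0 z).im⟩

/-- `Y₃` -/
noncomputable def Y3 (z : B_ k) : ℝ := ((c0 z).re + (c1 z).re) / √2 - 9 / 10

/-- the first component of `X` -/
noncomputable def X0 (z : B_ k) : ℝ := ((c0 z).re - (c1 z).re) / √2

/-- the norm of `(A, y)` -/
noncomputable def nrm (A : ℂ) (y : ℝ) : ℝ := √(‖A‖ ^ 2 + y ^ 2)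

/-- the first component of the standard section -/
noncomputable def q1 (A : ℂ) (y : ℝ) : ℝ := √(nrm A y * (nrm A y + y) / 2)

/-- the second component of the standard section -/
noncomputable def q2 (A : ℂ) (y : ℝ) : ℝ := √(nrm A y * (nrm A y - y) / 2)

/-- first component of the fibre coordinate, `σ = ±1` -/
noncomputable def Q1 (σ : ℝ) (A : ℂ) (y b : ℝ) (c : ℂ) : ℂ :=
  c * (σ : ℂ) * Complex.exp ((((σ : ℂ) * A).arg * (1 - b) : ℝ) * Complex.I) * (q1 A y : ℂ)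

/-- second component of the fibre coordinate -/
noncomputable def Q2 (σ : ℝ) (A : ℂ) (y b : ℝ) (c : ℂ) : ℂ :=
  c * Complex.exp ((-(((σ : ℂ) * A).arg * b) : ℝ) * Complex.I) * (q2 A y : ℂ)

/-- the unit complex number of `υ : T` -/
noncomputable def eT (υ : T) : ℂ := (AddCircle.toCircle υ : ℂ)

open Classical in
/-- the point of the one point compactification with the homogeneous coordinates
`f₁, f₂, r, x, w` -/
noncomputable def Phi (f₁ f₂ : ℂ) (r x : ℝ) (w : F_ k) : OnePoint (N_ k) :=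
  if r = f₁.re then OnePoint.infty else
    ((f₁.im / (r - f₁.re), f₂ / ((r - f₁.re : ℝ) : ℂ), x / r, (r⁻¹ : ℝ) • w) : N_ k)

/-- the coordinate map, for given functions `σ` and `b` on the base -/
noncomputable def hh (σ b : B_ k → ℝ) (p : B_ k × T) : OnePoint (N_ k) :=
  Phi (Q1 (σ p.1) (Yc p.1) (Y3 p.1) (b p.1) (eT p.2))
    (Q2 (σ p.1) (Yc p.1) (Y3 p.1) (b p.1) (eT p.2)) (nrm (Yc p.1) (Y3 p.1)) (X0 p.1) (cw p.1)

/-! ### statements of the two halves -/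

/-- PHICONT (helper35) -/
def PhiCont_Stmt (k : ℕ) : Prop :=
  ∀ (Z : Type) [TopologicalSpace Z] (S : Set Z) (a : Z) (f₁ f₂ : Z → ℂ) (r x : Z → ℝ)
    (w : Z → F_ k), a ∈ S → ContinuousWithinAt f₁ S a → ContinuousWithinAt f₂ S a →
    ContinuousWithinAt r S a → ContinuousWithinAt x S a → ContinuousWithinAt w S a →
    (∀ z ∈ S, ‖f₁ z‖ ^ 2 + ‖f₂ z‖ ^ 2 = r z ^ 2) → (∀ z ∈ S, 0 ≤ r z) →
    (r a = 0 → x a ≠ 0 ∨ w a ≠ 0) →
    ContinuousWithinAt (fun z => Phi (f₁ z) (f₂ z) (r z) (x z) (w z)) S a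

/-- HHSURJ (helper35) -/
def HhSurj_Stmt (k : ℕ) : Prop :=
  ∀ (σ b : B_ k → ℝ), (∀ z, σ z = 1 ∨ σ z = -1) → (∀ z, 0 ≤ b z ∧ b z ≤ 1) →
    ∀ n : N_ k, ∃ p, hh σ b p = (n : OnePoint (N_ k))

/-- HHINJ (helper35) -/
def HhInj_Stmt (k : ℕ) : Prop :=
  ∀ (σ b : B_ k → ℝ), (∀ z, σ z = 1 ∨ σ z = -1) → (∀ z, 0 ≤ b z ∧ b z ≤ 1) →
    ∀ p p' : B_ k × T, hh σ b p = hh σ b p' → hh σ b p ≠ OnePoint.infty → p = p'

end SpaceCoord

end Pool.Agent.EvenHomeo
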