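import Pool.Agent.Lib_helper32.EvenHomeo.SpaceCoordDefs

/-!
# SPACECOORD, definitions (2): the functions `b` and `σ` on the base, the parametrised base
-/

open Set Metric Topology

namespace Pool.Agent.EvenHomeo

open Pool.Agent.MinHomeo (Amb Sph)

namespace SpaceCoord

variable {k : ℕ}

/-- the function `b` in coordinates: `1 - max(|s|,|θ|)/min(1/20, ρ)`, cut off -/
noncomputable def bpar (ρ s θ : ℝ) : ℝ :=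
  if ρ ≤ 0 then 0 else max 0 (1 - max |cr s| |cr θ| / min (1 / 20) ρ)

/-- the function `b` on the base -/
noncomputable def bB (z : B_ k) : ℝ :=
  bpar ((‖c0 z‖ + ‖c1 z‖) / √2 - 9 / 10)
    ((c1 z * (starRingEnd ℂ) (c0 z)).arg / (2 * Real.pi)) ((c0 z).arg / (2 * Real.pi))

/-- the sign `σ` on the base: `1` for `0 ≤ s ≤ 1/2` -/
noncomputable def sB (z : B_ k) : ℝ :=
  if 0 ≤ (c1 z * (starRingEnd ℂ) (c0 z)).im then 1 else -1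

/-- `z` has the coordinates `(r₀, r₁, w, s, θ)` -/
def Par (z : B_ k) (r₀ r₁ : ℝ) (w : F_ k) (s θ : ℝ) : Prop :=
  0 < r₀ ∧ 0 < r₁ ∧ c0 z = MinHomeo.SphChart.e θ * (r₀ : ℂ) ∧
    c1 z = MinHomeo.SphChart.e (θ + s) * (r₁ : ℂ) ∧ cw z = MinHomeo.SphChart.e θ • w

/-! ### statements -/

/-- PAR (helper53): the functions of the base in coordinates -/
def ParFacts_Stmt (k : ℕ) : Prop :=
  ∀ (z : B_ k) (r₀ r₁ : ℝ) (w : F_ k) (s θ : ℝ), Par z r₀ r₁ w s θ →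
    r₀ ^ 2 + r₁ ^ 2 + ‖w‖ ^ 2 = 1 ∧
    Yc z = ⟨r₁ * Real.sin (2 * Real.pi * (θ + s)), -(r₀ * Real.sin (2 * Real.pi * θ))⟩ ∧
    Y3 z = (r₀ * Real.cos (2 * Real.pi * θ) + r₁ * Real.cos (2 * Real.pi * (θ + s))) / √2 - 9 / 10 ∧
    bB z = bpar ((r₀ + r₁) / √2 - 9 / 10) s θ ∧
    (0 ≤ s → s ≤ 1 / 2 → sB z = 1) ∧ (1 / 2 < s → s < 1 → sB z = -1)

/-- JUMP (helper76): the two formulas at `s = 0` -/
def Jump_Stmt : Prop :=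
  ∀ (r₀ r₁ θ : ℝ) (υ : T), 0 < r₀ → 0 < r₁ → r₀ ^ 2 + r₁ ^ 2 ≤ 1 →
    Q1 (-1) ⟨r₁ * Real.sin (2 * Real.pi * θ), -(r₀ * Real.sin (2 * Real.pi * θ))⟩
        ((r₀ * Real.cos (2 * Real.pi * θ) + r₁ * Real.cos (2 * Real.pi * θ)) / √2 - 9 / 10)
        (bpar ((r₀ + r₁) / √2 - 9 / 10) 0 θ) (eT υ) =
      Q1 1 ⟨r₁ * Real.sin (2 * Real.pi * θ), -(r₀ * Real.sin (2 * Real.pi * θ))⟩
        ((r₀ * Real.cos (2 * Real.pi * θ) + r₁ * Real.cos (2 * Real.pi * θ)) / √2 - 9 / 10)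
        (bpar ((r₀ + r₁) / √2 - 9 / 10) 0 θ)
        (eT (υ + D (1 / 20) ((r₀ + r₁) / √2 - 9 / 10) θ)) ∧
    Q2 (-1) ⟨r₁ * Real.sin (2 * Real.pi * θ), -(r₀ * Real.sin (2 * Real.pi * θ))⟩
        ((r₀ * Real.cos (2 * Real.pi * θ) + r₁ * Real.cos (2 * Real.pi * θ)) / √2 - 9 / 10)
        (bpar ((r₀ + r₁) / √2 - 9 / 10) 0 θ) (eT υ) =
      Q2 1 ⟨r₁ * Real.sin (2 * Real.pi * θ), -(r₀ * Real.sin (2 * Real.pi * θ))⟩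
        ((r₀ * Real.cos (2 * Real.pi * θ) + r₁ * Real.cos (2 * Real.pi * θ)) / √2 - 9 / 10)
        (bpar ((r₀ + r₁) / √2 - 9 / 10) 0 θ)
        (eT (υ + D (1 / 20) ((r₀ + r₁) / √2 - 9 / 10) θ))

/-- DISC (helper35): the points of `M` mapped to infinity, and the disc -/
def Disc_Stmt (k : ℕ) : Prop :=
  (∀ z : B_ k, Yc z = 0 → 0 ≤ Y3 z → ∃ r₀ r₁ w, Par z r₀ r₁ w 0 0 ∧
    (r₀ + r₁) / √2 - 9 / 10 = Y3 z) ∧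
  (∀ (z : B_ k) (υ : T), hh sB bB (z, υ) = OnePoint.infty ↔
    ∃ r₀ r₁ w, Par z r₀ r₁ w 0 0 ∧ 0 ≤ (r₀ + r₁) / √2 - 9 / 10 ∧
      ((r₀ + r₁) / √2 - 9 / 10 = 0 ∨ υ = 0))

/-- BPAR (helper32): continuity of `b` -/
def Bpar_Stmt : Prop :=
  (∀ ρ s θ, 0 ≤ bpar ρ s θ ∧ bpar ρ s θ ≤ 1) ∧
  (∀ ρ s θ, (ρ ≤ 0 ∨ 1 / 20 ≤ |cr s| ∨ 1 / 20 ≤ |cr θ|) → bpar ρ s θ = 0) ∧
  (∀ ρ s θ, 0 < ρ → cr s = 0 → cr θ = 0 → bpar ρ s θ = 1) ∧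
  ∀ ρ s θ, ¬ (ρ = 0 ∧ cr s = 0 ∧ cr θ = 0) →
    ContinuousAt (fun q : ℝ × ℝ × ℝ => bpar q.1 q.2.1 q.2.2) (ρ, s, θ)

end SpaceCoord

end Pool.Agent.EvenHomeo
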