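import Pool.Agent.Lib_helper32.EvenHomeo.SpaceCoordK
import Pool.Agent.Lib_helper53.EvenHomeo.OnePt

/-!
# SPACECOORD: continuity near the complement of the frozen disc, and the coordinate system
-/

open Set Metric Topology Filter

namespace Pool.Agent.EvenHomeo

open Pool.Agent.MinHomeo (Amb Sph)

namespace SpaceCoord

variable {k : ℕ}

theorem Par_unique {z z' : B_ k} {r₀ r₁ : ℝ} {w : F_ k} {s θ : ℝ} (h : Par z r₀ r₁ w s θ)
    (h' : Par z' r₀ r₁ w s θ) : z = z' := by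
  obtain ⟨-, -, h1, h2, h3⟩ := h
  obtain ⟨-, -, h1', h2', h3'⟩ := h'
  exact c_ext (h1.trans h1'.symm) (h2.trans h2'.symm) (h3.trans h3'.symm)

theorem nrm_gt {A : ℂ} {y : ℝ} (h : ¬ (A = 0 ∧ 0 ≤ y)) : y < nrm A y := by
  by_contra hcon
  rw [not_lt] at hcon
  have h1 := nrm_nonneg A y
  have h2 := nrm_sq A y
  have h3 : ‖A‖ ^ 2 ≤ 0 := by nlinarith
  have h4 : ‖A‖ = 0 := by
    have := sq_nonneg ‖A‖
    have h5 : ‖A‖ ^ 2 = 0 := le_antisymm h3 this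
    exact pow_eq_zero_iff (by norm_num) |>.1 h5
  exact h ⟨norm_eq_zero.1 h4, h1.trans hcon⟩

section WithBase

variable {X : Type} [NormedAddCommGroup X] [NormedSpace ℝ X] (b : Base X (Y_ k) (B_ k))

/-- points with non vanishing `z₀, z₁` are in the range of the chart -/
theorem exists_beta (hb : IsStd b) {z : B_ k} (h0 : c0 z ≠ 0) (h1 : c1 z ≠ 0) :
    ∃ y s θ, b.β (y, s, θ) = z ∧ y.1.1 = ‖c0 z‖ ∧ y.1.2.1 = ‖c1 z‖ := by
  have hn0 : 0 < ‖c0 z‖ := norm_pos_iff.2 h0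
  have hn1 : 0 < ‖c1 z‖ := norm_pos_iff.2 h1
  set θ : ℝ := (c0 z).arg / (2 * Real.pi) with hθ
  set s : ℝ := (c1 z).arg / (2 * Real.pi) - θ with hs
  have he : ‖MinHomeo.SphChart.e (-θ)‖ = 1 := MinHomeo.SphChart.norm_e _
  let y : Y_ k := ⟨(‖c0 z‖, ‖c1 z‖, MinHomeo.SphChart.e (-θ) • cw z), hn0, hn1, by
    simp only
    rw [norm_smul, he, one_mul]
    exact c_norm z⟩
  refine ⟨y, s, θ, ?_, rfl, rfl⟩
  refine Par_unique (hb.1 y s θ) ⟨hn0, hn1, ?_, ?_, ?_⟩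
  · exact (MinHomeo.SphChart.e_arg (c0 z)).symm
  · have h2 : θ + s = (c1 z).arg / (2 * Real.pi) := by
      rw [hs]
      ring
    rw [h2]
    exact (MinHomeo.SphChart.e_arg (c1 z)).symm
  · show cw z = MinHomeo.SphChart.e θ • (MinHomeo.SphChart.e (-θ) • cw z)
    rw [smul_smul, MinHomeo.SphChart.e_mul_neg, one_smul]

/-- the image of the closed disc times the torus is closed -/
theorem isClosed_disc : IsClosed (b.β '' {q : Y_ k × ℝ × ℝ | 0 ≤ b.ρ q.1}) := by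
  have h1 : b.β '' {q : Y_ k × ℝ × ℝ | 0 ≤ b.ρ q.1} =
      b.β '' ({y | 0 ≤ b.ρ y} ×ˢ (Icc (0 : ℝ) 1 ×ˢ Icc (0 : ℝ) 1)) := by
    apply Subset.antisymm
    · rintro _ ⟨⟨y, s, θ⟩, hq, rfl⟩
      refine ⟨(y, Int.fract s, Int.fract θ), ⟨hq, ⟨Int.fract_nonneg s, (Int.fract_lt_one s).le⟩,
        ⟨Int.fract_nonneg θ, (Int.fract_lt_one θ).le⟩⟩, ?_⟩
      rw [b.β_eq]
      refine ⟨rfl, ⟨⌊s⌋, ?_⟩, ⟨⌊θ⌋, ?_⟩⟩
      · exact (Int.fract_add_floor s).symm
      · exact (Int.fract_add_floor θ).symm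
    · rintro _ ⟨⟨y, s, θ⟩, ⟨hq, -⟩, rfl⟩
      exact ⟨(y, s, θ), hq, rfl⟩
  rw [h1]
  have h2 : IsCompact {y | 0 ≤ b.ρ y} := by
    refine b.ρ_cpt.of_isClosed_subset (isClosed_le continuous_const b.ρ_cont) ?_
    intro y hy
    have hy' : 0 ≤ b.ρ y := hy
    show -(1 / 20) ≤ b.ρ y
    linarith
  exact ((h2.prod (isCompact_Icc.prod isCompact_Icc)).image b.β_cont).isClosed

theorem off_disc_b (hb : IsStd b) {z : B_ k}
    (hz : z ∉ b.β '' {q : Y_ k × ℝ × ℝ | 0 ≤ b.ρ q.1}) : bB z = 0 := by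
  by_contra hne
  have hsq := sqrt_two_bounds
  have hρ : 0 < (‖c0 z‖ + ‖c1 z‖) / √2 - 9 / 10 := by
    by_contra hcon
    rw [not_lt] at hcon
    exact hne (bpar_zero (Or.inl hcon))
  have h1 : 9 / 10 < (‖c0 z‖ + ‖c1 z‖) / √2 := by linarith
  rw [lt_div_iff₀ (by linarith)] at h1
  have h2 := c_norm z
  have h3 : ‖c0 z‖ ≤ 1 := by nlinarith [sq_nonneg ‖c1 z‖, sq_nonneg ‖cw z‖]
  have h4 : ‖c1 z‖ ≤ 1 := by nlinarith [sq_nonneg ‖c0 z‖, sq_nonneg ‖cw z‖]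
  have h5 : c0 z ≠ 0 := by
    intro h
    rw [h, norm_zero] at h1
    linarith
  have h6 : c1 z ≠ 0 := by
    intro h
    rw [h, norm_zero] at h1
    linarith
  obtain ⟨y, s, θ, h7, h8, h9⟩ := exists_beta b hb h5 h6
  apply hz
  refine ⟨(y, s, θ), ?_, h7⟩
  show 0 ≤ b.ρ y
  rw [hb.2, h8, h9]
  exact hρ.le

theorem off_disc_A (hDisc : Disc_Stmt k) (hb : IsStd b) {z : B_ k}
    (hz : z ∉ b.β '' {q : Y_ k × ℝ × ℝ | 0 ≤ b.ρ q.1}) : ¬ (Yc z = 0 ∧ 0 ≤ Y3 z) := by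
  rintro ⟨h1, h2⟩
  obtain ⟨r₀, r₁, w, h3, h4⟩ := hDisc.1 z h1 h2
  have h5 : r₀ ^ 2 + r₁ ^ 2 + ‖w‖ ^ 2 = 1 := by
    have h6 := c_norm z
    obtain ⟨h7, h8, h9, h10, h11⟩ := h3
    rw [h9, h10, h11, norm_smul, norm_mul, norm_mul, MinHomeo.SphChart.norm_e,
      MinHomeo.SphChart.norm_e, Complex.norm_real, Complex.norm_real,
      Real.norm_of_nonneg h7.le, Real.norm_of_nonneg h8.le] at h6
    linarith
  let y : Y_ k := ⟨(r₀, r₁, w), h3.1, h3.2.1, h5⟩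
  apply hz
  refine ⟨(y, 0, 0), ?_, Par_unique (hb.1 y 0 0) h3⟩
  show 0 ≤ b.ρ y
  rw [hb.2]
  show 0 ≤ (r₀ + r₁) / √2 - 9 / 10
  rw [h4]
  exact h2

/-- continuity off the frozen disc -/
theorem ocont (hPhi : PhiCont_Stmt k) (hDisc : Disc_Stmt k) (hb : IsStd b) (z : B_ k) (υ : T)
    (hz : z ∉ b.β '' {q : Y_ k × ℝ × ℝ | 0 ≤ b.ρ q.1}) : ContinuousAt (hh sB bB) (z, υ) := by
  have hO : (b.β '' {q : Y_ k × ℝ × ℝ | 0 ≤ b.ρ q.1})ᶜ ∈ 𝓝 z :=
    (isClosed_disc b).isOpen_compl.mem_nhds hz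
  have hO' : ∀ᶠ p : B_ k × T in 𝓝 (z, υ), p.1 ∉ b.β '' {q : Y_ k × ℝ × ℝ | 0 ≤ b.ρ q.1} :=
    (continuous_fst.tendsto (z, υ)).eventually hO
  have hQ := Q_cont (Z := B_ k × T) (S := univ) (a := (z, υ)) (mem_univ _)
    (A := fun p => Yc p.1) (y := fun p => Y3 p.1) (b := fun _ => 0) (c := fun p => eT p.2)
    (σ := 1) (Or.inl rfl)
    (Yc_cont.comp continuous_fst).continuousAt.continuousWithinAt
    (Y3_cont.comp continuous_fst).continuousAt.continuousWithinAt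
    (eT_cont.comp continuous_snd).continuousAt.continuousWithinAt
    (fun q _ => norm_eT _)
    (Or.inr (Or.inl ⟨nrm_gt (off_disc_A b hDisc hb hz), Eventually.of_forall fun _ => rfl⟩))
  have h1 := hPhi (B_ k × T) univ (z, υ) _ _ (fun p => nrm (Yc p.1) (Y3 p.1))
    (fun p => X0 p.1) (fun p => cw p.1) (mem_univ _) hQ.1 hQ.2
    (cwa_nrm (Yc_cont.comp continuous_fst).continuousAt.continuousWithinAt
      (Y3_cont.comp continuous_fst).continuousAt.continuousWithinAt)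
    (X0_cont.comp continuous_fst).continuousAt.continuousWithinAt
    (cw_cont.comp continuous_fst).continuousAt.continuousWithinAt
    (fun q _ => norm_Q_sq (Or.inl rfl) _ _ _ (norm_eT _)) (fun q _ => nrm_nonneg _ _)
    (fun h => X_ne _ h)
  rw [continuousWithinAt_univ] at h1
  refine h1.congr ?_
  filter_upwards [hO'] with p hp
  have h2 := off_disc_b b hb hp
  have h3 : Yc p.1 ≠ 0 ∨ Y3 p.1 ≤ 0 := by
    have h4 := off_disc_A b hDisc hb hp
    by_contra hcon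
    push Not at hcon
    exact h4 ⟨hcon.1, hcon.2.le⟩
  unfold hh
  rw [h2]
  exact Phi_sign h3 (Or.inl rfl) (sB_pm p.1) _ _ _ _

/-- the point at infinity corresponds to `E` -/
theorem hh_infty_iff (hDisc : Disc_Stmt k) (hb : IsStd b) (p : B_ k × T) :
    hh sB bB p = OnePoint.infty ↔ p ∈ b.E := by
  obtain ⟨z, υ⟩ := p
  rw [hDisc.2 z υ]
  constructor
  · rintro ⟨r₀, r₁, w, h1, h2, h3⟩
    have h5 : r₀ ^ 2 + r₁ ^ 2 + ‖w‖ ^ 2 = 1 := by
      have h6 := c_norm z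
      obtain ⟨h7, h8, h9, h10, h11⟩ := h1
      rw [h9, h10, h11, norm_smul, norm_mul, norm_mul, MinHomeo.SphChart.norm_e,
        MinHomeo.SphChart.norm_e, Complex.norm_real, Complex.norm_real,
        Real.norm_of_nonneg h7.le, Real.norm_of_nonneg h8.le] at h6
      linarith
    let y : Y_ k := ⟨(r₀, r₁, w), h1.1, h1.2.1, h5⟩
    have h6 : b.ρ y = (r₀ + r₁) / √2 - 9 / 10 := hb.2 y
    exact ⟨y, by rw [h6]; exact h2, Par_unique h1 (hb.1 y 0 0), by rw [h6]; exact h3⟩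
  · rintro ⟨y, h1, h2, h3⟩
    have h6 := hb.2 y
    simp only at h2
    refine ⟨y.1.1, y.1.2.1, y.1.2.2, ?_, by rw [← h6]; exact h1, by rw [← h6]; exact h3⟩
    rw [h2]
    exact hb.1 y 0 0

/-- the coordinate system -/
theorem coord (hPar : ParFacts_Stmt k) (hPhi : PhiCont_Stmt k) (hJump : Jump_Stmt)
    (hDisc : Disc_Stmt k) (hSurj : HhSurj_Stmt k) (hInj : HhInj_Stmt k) (hb : IsStd b)
    {M : Type} [MetricSpace M] (φ : OnePoint (N_ k) ≃ₜ M) :
    Nonempty (Coord b (1 / 20) M (φ OnePoint.infty)) := by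
  refine ⟨{
    h := fun p => φ (hh sB bB p)
    surj := ?_
    hE := ?_
    inj := ?_
    kcont := ?_
    ocont := ?_ }⟩
  · intro m
    obtain ⟨x, rfl⟩ := φ.surjective m
    induction x using OnePoint.rec with
    | infty =>
      have hs : (√2 : ℝ) ^ 2 = 2 := Real.sq_sqrt (by norm_num)
      have h0 : 0 < (√2 : ℝ) := by positivity
      let y : Y_ k := ⟨(√2 / 2, √2 / 2, 0), by positivity, by positivity, by
        simp only
        rw [norm_zero, div_pow, hs]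
        norm_num⟩
      refine ⟨(b.β (y, 0, 0), 0), ?_⟩
      show φ _ = φ _
      congr 1
      rw [hh_infty_iff b hDisc hb]
      refine ⟨y, ?_, rfl, Or.inr rfl⟩
      rw [hb.2]
      show 0 ≤ (√2 / 2 + √2 / 2) / √2 - 9 / 10
      rw [add_halves, div_self h0.ne']
      norm_num
    | coe n =>
      obtain ⟨p, hp⟩ := hSurj sB bB sB_pm bB_bounds n
      exact ⟨p, congrArg φ hp⟩
  · intro p
    rw [← hh_infty_iff b hDisc hb]
    exact φ.injective.eq_iff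
  · intro p p' h
    have h1 := φ.injective h
    by_cases h2 : hh sB bB p = OnePoint.infty
    · right
      exact congrArg φ h2
    · left
      exact hInj sB bB sB_pm bB_bounds p p' h1 h2
  · exact φ.continuous.comp_continuousOn (kcont b hPar hPhi hJump hb)
  · intro z υ hz
    exact φ.continuous.continuousAt.comp (ocont b hPhi hDisc hb z υ hz)

end WithBase

/-- SPACE, from the modules -/
theorem space_of (hPar : ∀ k, ParFacts_Stmt k) (hPhi : ∀ k, PhiCont_Stmt k) (hJump : Jump_Stmt)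
    (hDisc : ∀ k, Disc_Stmt k) (hSurj : ∀ k, HhSurj_Stmt k) (hInj : ∀ k, HhInj_Stmt k)
    (hBase : ∀ k, ∃ b : Base (G_ k) (Y_ k) (B_ k), IsStd b) : Space_Stmt := by
  intro k
  obtain ⟨b, hb⟩ := hBase k
  obtain ⟨M, _, _, φ, hφ⟩ := onePt k
  obtain ⟨C⟩ := coord b (hPar k) (hPhi k) hJump (hDisc k) (hSurj k) (hInj k) hb φ
  refine ⟨G_ k, Y_ k, B_ k, M, inferInstance, inferInstance, inferInstance, inferInstance,
    inferInstance, φ OnePoint.infty, b, C, ?_, ?_, inferInstance, hφ⟩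
  · exact FiniteDimensional.complexToReal (G_ k)
  · have : FiniteDimensional ℝ (Amb (G_ k)) := FiniteDimensional.complexToReal (Amb (G_ k))
    have : ProperSpace (Amb (G_ k)) := FiniteDimensional.proper ℝ (Amb (G_ k))
    exact isCompact_iff_compactSpace.1 (isCompact_sphere _ _)

end SpaceCoord

end Pool.Agent.EvenHomeo
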